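import Pool.Agent.Helper15.T4.Stmts

set_option autoImplicit false

/-!
MP_e0a484_co, module PK1: the peak of the first model.
-/

open Finset

namespace Pool.Agent.Helper20.T4

open Pool.Agent.Helper15.T4

theorem w1_symm (a b c : L1) : w1 a b c = w1 b a c ∧ w1 a b c = w1 a c b := by
  constructor
  · unfold w1
    congr 1
    apply propext
    constructor
    · rintro ⟨h1, h2, h3, h4, h5⟩
      exact ⟨h1.symm, h3, h2, h4.symm, h4.symm.trans h5⟩
    · rintro ⟨h1, h2, h3, h4, h5⟩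
      exact ⟨h1.symm, h3, h2, h4.symm, h4.symm.trans h5⟩
  · unfold w1
    congr 1
    apply propext
    constructor
    · rintro ⟨h1, h2, h3, h4, h5⟩
      exact ⟨h2, h1, h3.symm, h5, h4⟩
    · rintro ⟨h1, h2, h3, h4, h5⟩
      exact ⟨h2, h1, h3.symm, h5, h4⟩

/-- Decidable version of the weight. -/
def wn (a b c : L1) : ℕ :=
  if (a.1 ≠ b.1 ∧ a.1 ≠ c.1 ∧ b.1 ≠ c.1 ∧ a.1.succAbove a.2 = b.1.succAbove b.2 ∧
    a.1.succAbove a.2 = c.1.succAbove c.2) then 1 else 0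

theorem w1_eq_wn (a b c : L1) : w1 a b c = (wn a b c : ℝ) := by
  unfold w1 wn vc
  by_cases h : (a.1 ≠ b.1 ∧ a.1 ≠ c.1 ∧ b.1 ≠ c.1 ∧ a.1.succAbove a.2 = b.1.succAbove b.2 ∧
    a.1.succAbove a.2 = c.1.succAbove c.2)
  · rw [if_pos h, if_pos h]; simp
  · rw [if_neg h, if_neg h]; simp

theorem sum_wn : ∀ c : L1, ∑ a : L1, ∑ b : L1, wn a b c = 2 := by
  decide +kernel

theorem sum_w1 (c : L1) : ∑ a : L1, ∑ b : L1, (w1 a b c : ℂ) = 2 := by
  have h := sum_wn c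
  have h2 : ((∑ a : L1, ∑ b : L1, wn a b c : ℕ) : ℂ) = ((2 : ℕ) : ℂ) := by rw [h]
  rw [Nat.cast_sum] at h2
  simp only [Nat.cast_sum] at h2
  rw [show ((2 : ℕ) : ℂ) = 2 by norm_num] at h2
  rw [← h2]
  apply sum_congr rfl; intro a _
  apply sum_congr rfl; intro b _
  rw [w1_eq_wn]; simp

theorem sum_S1_right (a : L1) : ∑ i : L1, S1 a i = (Real.sqrt 2 : ℂ) := by
  have h : ∀ d : Fin 4, ∀ j : Fin 3, S1 a (d, j) =
      if a.1 = d then ((Real.sqrt 2 : ℂ) - Complex.I) / 3 + (if a.2 = j then Complex.I else 0) else 0 := by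
    intro d j
    unfold S1
    rfl
  rw [Fintype.sum_prod_type]
  simp only [h]
  have h2 : ∀ d : Fin 4, ∑ j : Fin 3, (if a.1 = d then ((Real.sqrt 2 : ℂ) - Complex.I) / 3 +
      (if a.2 = j then Complex.I else 0) else 0) = if a.1 = d then (Real.sqrt 2 : ℂ) else 0 := by
    intro d
    split_ifs with h3
    · rw [sum_add_distrib]
      simp
      ring
    · simp
  simp only [h2]
  simp

theorem sum_S1_left (i : L1) : ∑ a : L1, S1 a i = (Real.sqrt 2 : ℂ) := by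
  have hs : ∀ a : L1, S1 a i = S1 i a := by
    intro a
    unfold S1
    by_cases h : a.1 = i.1
    · rw [if_pos h, if_pos h.symm]
      by_cases h2 : a.2 = i.2
      · rw [if_pos h2, if_pos h2.symm]
      · rw [if_neg h2, if_neg (Ne.symm h2)]
    · rw [if_neg h, if_neg (Ne.symm h)]
  simp only [hs]
  exact sum_S1_right i

theorem card_L1 : Fintype.card L1 = 12 := by decide

theorem sqrt12_pos : 0 < Real.sqrt 12 := Real.sqrt_pos.mpr (by norm_num)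

theorem nsq_u1 : nsq u1 = 1 := by
  unfold nsq u1
  rw [sum_const, card_univ, card_L1, div_pow, Real.sq_sqrt (by norm_num)]
  norm_num

theorem q1_pos : 0 < q1 := by
  unfold q1; exact Real.sqrt_pos.mpr (by norm_num)

theorem q1_sq : q1 ^ 2 = 8 / 3 := by
  unfold q1; exact Real.sq_sqrt (by norm_num)

theorem l_u1 (a : L1) : m1.l a u1 = ((Real.sqrt 2 / Real.sqrt 12 : ℝ) : ℂ) := by
  unfold Mdl.l
  show ∑ i, S1 a i * ((1 / Real.sqrt 12 : ℝ) : ℂ) = _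
  rw [← sum_mul, sum_S1_right]
  push_cast
  ring

theorem sum_l (h : L1 → ℝ) : ∑ c, m1.l c h = (Real.sqrt 2 : ℂ) * ((∑ i, h i : ℝ) : ℂ) := by
  unfold Mdl.l
  rw [sum_comm]
  show ∑ i, ∑ c, S1 c i * (h i : ℂ) = _
  simp only [← sum_mul, sum_S1_left]
  rw [← mul_sum]
  push_cast
  rfl

theorem q1_eq : q1 = 2 * Real.sqrt 2 / Real.sqrt 3 := by
  unfold q1
  rw [show (8 / 3 : ℝ) = 2 ^ 2 * 2 / 3 by norm_num, Real.sqrt_div (by norm_num),
    Real.sqrt_mul (by norm_num), Real.sqrt_sq (by norm_num)]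

theorem T_u1 (h : L1 → ℝ) : m1.T u1 u1 h = (q1 : ℂ) * ((∑ i, u1 i * h i : ℝ) : ℂ) := by
  unfold Mdl.T
  simp only [l_u1]
  have e1 : ∑ a : L1, ∑ b : L1, ∑ c : L1, (m1.w a b c : ℂ) * ((Real.sqrt 2 / Real.sqrt 12 : ℝ) : ℂ) *
      ((Real.sqrt 2 / Real.sqrt 12 : ℝ) : ℂ) * m1.l c h =
      ((Real.sqrt 2 / Real.sqrt 12 : ℝ) : ℂ) * ((Real.sqrt 2 / Real.sqrt 12 : ℝ) : ℂ) *
      ∑ c : L1, (∑ a : L1, ∑ b : L1, (w1 a b c : ℂ)) * m1.l c h := by
    have e2 : ∀ a : L1, ∑ b : L1, ∑ c : L1, (m1.w a b c : ℂ) * ((Real.sqrt 2 / Real.sqrt 12 : ℝ) : ℂ) *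
      ((Real.sqrt 2 / Real.sqrt 12 : ℝ) : ℂ) * m1.l c h =
      ∑ c : L1, ∑ b : L1, (m1.w a b c : ℂ) * ((Real.sqrt 2 / Real.sqrt 12 : ℝ) : ℂ) *
      ((Real.sqrt 2 / Real.sqrt 12 : ℝ) : ℂ) * m1.l c h := fun a => sum_comm
    simp only [e2]
    rw [sum_comm, mul_sum]
    apply sum_congr rfl; intro c _
    rw [sum_mul, mul_sum]
    apply sum_congr rfl; intro a _
    rw [sum_mul, mul_sum]
    apply sum_congr rfl; intro b _
    show (w1 a b c : ℂ) * _ * _ * _ = _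
    ring
  rw [e1]
  simp only [sum_w1]
  rw [← mul_sum, sum_l]
  have e3 : ∑ i, u1 i * h i = 1 / Real.sqrt 12 * ∑ i, h i := by
    unfold u1
    rw [mul_sum]
  rw [e3]
  have e4 : Real.sqrt 2 / Real.sqrt 12 * (Real.sqrt 2 / Real.sqrt 12) * (2 * Real.sqrt 2) =
      q1 * (1 / Real.sqrt 12) := by
    rw [q1_eq]
    have h12 : Real.sqrt 12 = 2 * Real.sqrt 3 := by
      rw [show (12 : ℝ) = 2 ^ 2 * 3 by norm_num, Real.sqrt_mul (by norm_num), Real.sqrt_sq (by norm_num)]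
    rw [h12]
    have h3 : Real.sqrt 3 ≠ 0 := by positivity
    have h2 : Real.sqrt 2 * Real.sqrt 2 = 2 := Real.mul_self_sqrt (by norm_num)
    field_simp
    nlinarith [h2]
  have e5 : ((Real.sqrt 2 / Real.sqrt 12 * (Real.sqrt 2 / Real.sqrt 12) * (2 * Real.sqrt 2) : ℝ) : ℂ) =
      ((q1 * (1 / Real.sqrt 12) : ℝ) : ℂ) := by rw [e4]
  push_cast at e5 ⊢
  linear_combination (∑ i, (h i : ℂ)) * e5

theorem PK1 (hMPK : ST_MPK) (hIA : ST_IA) (hPOS : ST_POS1) : ST_PK1 := by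
  have key : ∀ x : L1 → ℝ, m1.P x = m1.Tc (fun i => (x i : ℂ)) (fun i => (x i : ℂ)) (fun i => (x i : ℂ)) := by
    intro x
    rfl
  have ncq_real : ∀ x : L1 → ℝ, ncq (fun i => (x i : ℂ)) = nsq x := by
    intro x
    unfold ncq nsq
    simp
  refine hMPK L1 L1 m1 u1 q1 (fun a b c => w1_symm a b c) nsq_u1 q1_pos T_u1 ?_ ?_ hPOS
  · intro x
    have := (hIA (fun i => (x i : ℂ))).1
    rw [ncq_real, ← key] at this
    rw [q1_sq]
    exact this
  · intro x hx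
    have := (hIA (fun i => (x i : ℂ))).2
    rw [ncq_real, ← key] at this
    rw [q1_sq] at hx
    obtain ⟨s, hs⟩ := this hx
    refine ⟨s * Real.sqrt 12, ?_⟩
    funext i
    have h1 := congrFun hs i
    simp only [Complex.ofReal_inj] at h1
    show x i = s * Real.sqrt 12 * u1 i
    rw [h1]
    unfold u1
    have := sqrt12_pos.ne'
    field_simp

end Pool.Agent.Helper20.T4
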