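import Pool.Agent.Helper15.T4.Stmts

set_option autoImplicit false

/-!
MP_e0a484_co, module TY1: a pairing with a total colouring gives a Type 1 graph.
-/

open Finset

namespace Pool.Agent.Helper20.T4

open Pool.Agent.Helper15.T4

/-- The partner of a half-edge. -/
theorem exists_partner {H : Type} [Fintype H] {M : Finset (Sym2 H)} (hM : IsPM (univ : Finset H) M) :
    ∃ p : H → H, (∀ h, s(h, p h) ∈ M) ∧ ∀ h h', s(h, h') ∈ M → h' = p h := by
  obtain ⟨_, _, h3⟩ := hM
  have key : ∀ h : H, ∃ h' : H, s(h, h') ∈ M ∧ ∀ h'', s(h, h'') ∈ M → h'' = h' := by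
    intro h
    obtain ⟨e, ⟨he, hh⟩, huniq⟩ := h3 h (mem_univ h)
    obtain ⟨h', rfl⟩ := Sym2.mem_iff_exists.mp hh
    refine ⟨h', he, ?_⟩
    intro h'' hh''
    have := huniq s(h, h'') ⟨hh'', Sym2.mem_mk_left h h''⟩
    exact Sym2.congr_right.mp this
  choose p hp using key
  exact ⟨p, fun h => (hp h).1, fun h h' hh' => (hp h).2 h' hh'⟩

theorem w1_one {a b c : L1} (h : w1 a b c = 1) :
    a.1 ≠ b.1 ∧ a.1 ≠ c.1 ∧ b.1 ≠ c.1 ∧ vc a = vc b ∧ vc a = vc c := by
  unfold w1 at h
  by_contra hc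
  rw [if_neg hc] at h
  exact zero_ne_one h

theorem TY1 : ST_TY1 := by
  classical
  intro n g M hM hC hX
  have hPM : IsPM (univ : Finset (HE n)) M := by
    have := hM
    unfold PM at this
    exact (mem_filter.mp this).2
  obtain ⟨p, hp1, hp2⟩ := exists_partner hPM
  have hXc : ∃ σ : HE n → L1, (∀ v, w1 (σ (v, 0)) (σ (v, 1)) (σ (v, 2)) = 1) ∧
      ∀ e ∈ M, Cmp (e.map σ) := by
    unfold Xc at hX
    obtain ⟨σ, hσ⟩ := Finset.card_ne_zero.mp hX
    exact ⟨σ, (mem_filter.mp hσ).2⟩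
  obtain ⟨σ, hσ1, hσ2⟩ := hXc
  -- injectivity of the neighbour map
  have hinj : ∀ u : Fin n, Function.Injective (fun a : Fin 3 => (p (u, a)).1) := by
    intro u
    have h3 := hC.1 u
    have hsub : {w | (Gr M).Adj u w} ⊆ ((univ.image (fun a : Fin 3 => (p (u, a)).1) : Finset (Fin n)) : Set (Fin n)) := by
      rintro w ⟨_, a, b, hab⟩
      have := hp2 _ _ hab
      rw [coe_image]
      exact ⟨a, by simp, by show (p (u, a)).1 = w; rw [← this]⟩
    have hle := Set.ncard_le_ncard hsub (Finset.finite_toSet _)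
    rw [h3, Set.ncard_coe_finset] at hle
    have hle2 : (univ.image (fun a : Fin 3 => (p (u, a)).1) : Finset (Fin n)).card ≤ (univ : Finset (Fin 3)).card :=
      Finset.card_image_le
    have heq : (univ.image (fun a : Fin 3 => (p (u, a)).1) : Finset (Fin n)).card = (univ : Finset (Fin 3)).card := by
      apply le_antisymm hle2
      simpa using hle
    have := Finset.card_image_iff.mp heq
    intro a b hab
    exact this (by simp) (by simp) hab
  -- properties of the labels
  have hvc : ∀ (v : Fin n) (a : Fin 3), vc (σ (v, a)) = vc (σ (v, 0)) := by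
    intro v a
    obtain ⟨_, _, _, h4, h5⟩ := w1_one (hσ1 v)
    fin_cases a
    · rfl
    · exact h4.symm
    · exact h5.symm
  have hd : ∀ (v : Fin n) (a b : Fin 3), a ≠ b → (σ (v, a)).1 ≠ (σ (v, b)).1 := by
    intro v a b hab
    obtain ⟨h1, h2, h3, _, _⟩ := w1_one (hσ1 v)
    fin_cases a <;> fin_cases b
    · exact absurd rfl hab
    · exact h1
    · exact h2
    · exact h1.symm
    · exact absurd rfl hab
    · exact h3
    · exact h2.symm
    · exact h3.symm
    · exact absurd rfl hab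
  have hcmp : ∀ h : HE n, (σ h).1 = (σ (p h)).1 ∧ (σ h).2 ≠ (σ (p h)).2 := by
    intro h
    exact hσ2 _ (hp1 h)
  have hpp : ∀ h : HE n, p (p h) = h := by
    intro h
    have h1 : s(p h, h) ∈ M := by
      rw [Sym2.eq_swap]; exact hp1 h
    exact (hp2 _ _ h1).symm
  have hadj : ∀ u v : Fin n, (Gr M).Adj u v → ∃ a : Fin 3, (p (u, a)).1 = v := by
    rintro u v ⟨_, a, b, hab⟩
    exact ⟨a, by rw [← hp2 _ _ hab]⟩
  -- the edge colouring
  let d : Fin n → Fin n → Fin 4 := fun u v =>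
    if h : ∃ a : Fin 3, (p (u, a)).1 = v then (σ (u, h.choose)).1 else 0
  have hdval : ∀ (u v : Fin n) (a : Fin 3), (p (u, a)).1 = v → d u v = (σ (u, a)).1 := by
    intro u v a ha
    have h : ∃ a : Fin 3, (p (u, a)).1 = v := ⟨a, ha⟩
    have h1 : h.choose = a := hinj u (h.choose_spec.trans ha.symm)
    simp only [d, dif_pos h]
    rw [h1]
  refine ⟨fun v => vc (σ (v, 0)), d, ?_, ?_, ?_, ?_⟩
  · intro u v huv
    obtain ⟨a, ha⟩ := hadj u v huv
    rw [hdval u v a ha]
    have hb : (p (v, (p (u, a)).2)).1 = u := by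
      have : (v, (p (u, a)).2) = p (u, a) := Prod.ext ha.symm rfl
      rw [this, hpp]
    rw [hdval v u _ hb]
    have : (v, (p (u, a)).2) = p (u, a) := Prod.ext ha.symm rfl
    rw [this]
    exact (hcmp (u, a)).1
  · intro u v huv
    obtain ⟨a, ha⟩ := hadj u v huv
    have h1 : (v, (p (u, a)).2) = p (u, a) := Prod.ext ha.symm rfl
    have hu := hvc u a
    have hv := hvc v (p (u, a)).2
    rw [h1] at hv
    show vc (σ (u, 0)) ≠ vc (σ (v, 0))
    rw [← hu, ← hv]
    obtain ⟨h2, h3⟩ := hcmp (u, a)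
    unfold vc
    rw [← h2]
    intro h4
    exact h3 (Fin.succAbove_right_injective h4)
  · intro u v w huv huw hvw
    obtain ⟨a, ha⟩ := hadj u v huv
    obtain ⟨b, hb⟩ := hadj u w huw
    rw [hdval u v a ha, hdval u w b hb]
    apply hd
    rintro rfl
    exact hvw (ha.symm.trans hb)
  · intro u v huv
    obtain ⟨a, ha⟩ := hadj u v huv
    rw [hdval u v a ha]
    show (σ (u, a)).1 ≠ vc (σ (u, 0))
    rw [← hvc u a]
    unfold vc
    exact (Fin.succAbove_ne _ _).symm

end Pool.Agent.Helper20.T4
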